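import Pool.Agent.P.MP_d0ec72_al.OInst

/-! Infinite-dimensional residually nilpotent Lie algebras with the maximal condition on
subalgebras in every prime characteristic. -/

namespace Pool.Agent.Results.MP_d0ec72_al.AllPrimes

universe u

theorem result (p : ℕ) [Fact p.Prime] :
    (∃ (k : Type) (_ : Field k) (_ : CharP k p), ¬ Module.Finite (frobenius k p).fieldRange k) ∧
    ∀ (k : Type u) [Field k] [CharP k p], ¬ Module.Finite (frobenius k p).fieldRange k →
      ∃ (L : Type u) (_ : LieRing L) (_ : LieAlgebra k L), ¬ Module.Finite k L ∧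
        (∀ c : ℕ →o LieSubalgebra k L, ∃ n, ∀ m, n ≤ m → c m = c n) ∧
        ⨅ n, LieModule.lowerCentralSeries k L L n = ⊥ :=
  ⟨Pool.Agent.P.MP_d0ec72_al.Odd.exists_field p, Pool.Agent.P.MP_d0ec72_al.Odd.main_field p⟩

end Pool.Agent.Results.MP_d0ec72_al.AllPrimes
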