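import Pool.Agent.P.MP_d0ec72_al.Nw3

/-! In prime characteristic, a Lie algebra with a narrow grading by an abelian group has an
infinite strictly increasing chain of finite-dimensional subalgebras. -/

namespace Pool.Agent.Results.MP_d0ec72_al.NarrowCharP

theorem result (k L Γ : Type*) [Field k] (p : ℕ) [Fact p.Prime] [CharP k p] [LieRing L]
    [LieAlgebra k L] [AddCommGroup Γ] (A : Γ → Submodule k L) (hind : iSupIndep A)
    (hbr : ∀ α β, ∀ a ∈ A α, ∀ b ∈ A β, ⁅a, b⁆ ∈ A (α + β))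
    (hfin : ∀ γ, Module.Finite k (A γ)) (hinf : {γ | A γ ≠ ⊥}.Infinite)
    (hw : ∀ γ : Γ, ¬ IsOfFinAddOrder γ →
      ¬ Filter.Tendsto (fun n : ℕ => Module.finrank k (A (n • γ))) Filter.atTop Filter.atTop) :
    ∃ c : ℕ → LieSubalgebra k L, StrictMono c ∧ (∀ m, Module.Finite k (c m)) ∧
      ({γ | A γ ≠ ⊥ ∧ IsOfFinAddOrder γ}.Finite → ∀ m, IsLieAbelian (c m)) := by
  by_cases ht : {γ | A γ ≠ ⊥ ∧ IsOfFinAddOrder γ}.Finite
  · obtain ⟨c, h1, h2, h3⟩ | ⟨γ, hγ, h⟩ :=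
      Pool.Agent.P.MP_d0ec72_al.Nw.main_group p A hind hbr hfin hinf ht
    · exact ⟨c, h1, h2, fun _ => h3⟩
    · exact absurd (Filter.tendsto_atTop_atTop.2 h) (hw γ hγ)
  · obtain ⟨c, h1, h2⟩ := Pool.Agent.P.MP_d0ec72_al.Nw.tors A hind hbr hfin ht
    exact ⟨c, h1, h2, fun h => absurd h ht⟩

end Pool.Agent.Results.MP_d0ec72_al.NarrowCharP
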